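import Mathlib
import Pool.Agent.R40.ZSRg

/-!
# MP_c15e47_co: zero-sum Ramsey numbers over the Klein group are at most `n + 3082`

For every graph `G` on `n` vertices with an even number of edges, `R(G, Z_2^2) ≤ n + 3082`.
-/

namespace Pool.Agent.Results.MP_c15e47_co.KleinAdditive

/-- The Klein four-group. -/
abbrev Klein : Type := ZMod 2 × ZMod 2

/-- Colourings of the edges of the complete graph on `Fin N` by elements of `Γ`. -/
abbrev Colouring (N : ℕ) (Γ : Type) : Type := (⊤ : SimpleGraph (Fin N)).edgeSet → Γ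

/-- `c` contains a zero-sum copy of `G`: there is a subgraph `H` of the complete graph which is
isomorphic to `G` and whose edges have colours summing to zero. -/
def HasZeroSumCopy {V Γ : Type} [AddCommGroup Γ] (G : SimpleGraph V) {N : ℕ}
    (c : Colouring N Γ) : Prop :=
  ∃ H : (⊤ : SimpleGraph (Fin N)).Subgraph,
    Nonempty (G ≃g H.coe) ∧ ∑ᶠ e : H.edgeSet, c ⟨e, H.edgeSet_subset e.2⟩ = 0

/-- The zero-sum Ramsey number: the least `N` such that every colouring of the edges of the
complete graph on `N` vertices contains a zero-sum copy of `G`. -/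
noncomputable def zeroSumRamsey {V : Type} (G : SimpleGraph V) (Γ : Type) [AddCommGroup Γ] : ℕ :=
  sInf {N | ∀ c : Colouring N Γ, HasZeroSumCopy G c}

open Pool.Agent.R40.ZSR in
theorem has_copy {V : Type} [Fintype V] (G : SimpleGraph V) (hG : Even G.edgeSet.ncard) (N : ℕ)
    (hN : Fintype.card V + 3082 ≤ N) (c : Colouring N Klein) : HasZeroSumCopy G c := by
  classical
  obtain ⟨c', hc'⟩ : ∃ c' : Sym2 (Fin N) → Klein, ∀ e (h : e ∈ (⊤ : SimpleGraph (Fin N)).edgeSet),
      c ⟨e, h⟩ = c' e := by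
    refine ⟨fun e => if h : e ∈ (⊤ : SimpleGraph (Fin N)).edgeSet then c ⟨e, h⟩ else 0, ?_⟩
    intro e h
    beta_reduce
    rw [dif_pos h]
  have hE : ∀ e ∈ G.edgeSet.toFinset, ¬ e.IsDiag := by
    intro e he
    rw [Set.mem_toFinset] at he
    exact G.not_isDiag_of_mem_edgeSet he
  have hev : Even G.edgeSet.toFinset.card := by
    rwa [← Set.ncard_eq_toFinset_card']
  obtain ⟨φ, hφ, -, h1, h2⟩ := main2 hE hev (fun e => (c' e).1) (fun e => (c' e).2)
    (X := (Finset.univ : Finset (Fin N))) (by rw [Finset.card_univ, Fintype.card_fin]; exact hN)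
  let f : G.Copy (⊤ : SimpleGraph (Fin N)) :=
    ⟨⟨φ, fun {a b} h => by rw [SimpleGraph.top_adj]; exact fun e => h.ne (hφ e)⟩, hφ⟩
  refine ⟨f.toSubgraph, ⟨f.isoToSubgraph⟩, ?_⟩
  have e1 : (∑ᶠ e : f.toSubgraph.edgeSet, c ⟨e, f.toSubgraph.edgeSet_subset e.2⟩) =
      ∑ᶠ e : f.toSubgraph.edgeSet, c' e := by
    congr 1
    funext e
    exact hc' _ _
  rw [e1, finsum_set_coe_eq_finsum_mem, SimpleGraph.Subgraph.edgeSet_map]
  have hinj : Set.InjOn (Sym2.map f.toHom) (⊤ : G.Subgraph).edgeSet :=
    (Sym2.map.injective hφ).injOn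
  rw [finsum_mem_image hinj, SimpleGraph.Subgraph.edgeSet_top, ← Set.coe_toFinset G.edgeSet,
    finsum_mem_coe_finset]
  ext
  · rw [Prod.fst_sum]
    exact h1
  · rw [Prod.snd_sum]
    exact h2

/-- For every graph `G` with an even number of edges, every colouring of the edges of the
complete graph on `N ≥ |V(G)| + 3082` vertices by the Klein four-group contains a zero-sum copy
of `G`; in particular `R(G, Z_2^2) ≤ |V(G)| + 3082`. -/
theorem result {V : Type} [Fintype V] (G : SimpleGraph V) (hG : Even G.edgeSet.ncard) :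
    (∀ N, Fintype.card V + 3082 ≤ N → ∀ c : Colouring N Klein, HasZeroSumCopy G c) ∧
      zeroSumRamsey G Klein ≤ Fintype.card V + 3082 := by
  refine ⟨has_copy G hG, Nat.sInf_le ?_⟩
  intro c
  exact has_copy G hG _ le_rfl c

end Pool.Agent.Results.MP_c15e47_co.KleinAdditive
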